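import Pool.Agent.H190Z.Shell4

set_option autoImplicit false

namespace Pool.Agent.Results.MP_6b8987_gt.AShellNotFilling

open Pool.Agent.H190Z.Shell

/-- For `0 < a < 1` the cubical shell `D = (-1,1)⁴ \ [-a,a]⁴` is a bounded domain in `ℝ⁴` whose
packing numbers in the cube `X = (-1,1)⁴` are all at most `1 - a⁴`; so `p_D(X) < 1`. -/
theorem result (a : ℝ) (ha : 0 < a) (ha1 : a < 1) :
    IsOpen (shell a) ∧ IsConnected (shell a) ∧ Bornology.IsBounded (shell a) ∧
      (∀ k, 1 ≤ k → 0 < pack k (shell a) cube) ∧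
      (∀ k, pack k (shell a) cube ≤ ENNReal.ofReal (1 - a ^ 4)) ∧
      Filter.liminf (fun k => pack k (shell a) cube) Filter.atTop < 1 :=
  main ha ha1

end Pool.Agent.Results.MP_6b8987_gt.AShellNotFilling
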